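import Pool.Agent.Q165.IC.Path
import Pool.Agent.Y335.FL.Main

/-!
# Nowhere-zero 5-flows in graphs with short induced circuits
-/

set_option autoImplicit false
set_option linter.unusedSectionVars false

namespace Pool.Agent.Q165.IC

open Finset Pool.Agent.TH676.Z Pool.Agent.Y335.FL Pool.Agent.Y358.IN Pool.Agent.Q165.SG
  Pool.Agent.Q165.TI

section

variable {V E : Type} [Fintype V] [DecidableEq V] [Fintype E] [DecidableEq E]

/-- a nonzero even subgraph contains an induced circuit of the graph on its vertices -/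
theorem circ_of_even {src dst : E → V} {S : Finset V} (hP : NoPar src dst) {x : E → ZMod 2}
    (hx : x ∈ ZF src dst (ES src dst S)) (h0 : x ≠ 0) :
    ∃ (k : ℕ) (z : Fin (k + 3) → V), Circ (Adj src dst) k z ∧ ∀ i, z i ∉ S := by
  classical
  set U : Finset V := univ.filter (fun v => ∃ e, x e ≠ 0 ∧ (src e = v ∨ dst e = v)) with hU
  have hES : ∀ e, x e ≠ 0 → src e ≠ dst e ∧ src e ∉ S ∧ dst e ∉ S := by
    intro e he
    have h1 : e ∈ ES src dst S := by
      by_contra hcon
      exact he (hx.1 e hcon)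
    unfold ES at h1
    rw [mem_filter] at h1
    exact h1.2
  have hne : U.Nonempty := by
    have h1 : ∃ e, x e ≠ 0 := by
      by_contra hcon
      push Not at hcon
      exact h0 (funext hcon)
    obtain ⟨e, he⟩ := h1
    exact ⟨src e, mem_filter.2 ⟨mem_univ _, e, he, Or.inl rfl⟩⟩
  have h2 : ∀ v ∈ U, ∀ a, ∃ b ∈ U, Adj src dst v b ∧ b ≠ a := by
    intro v hv a
    obtain ⟨_, e, he, hev⟩ := mem_filter.1 hv
    -- the edges of the even subgraph at `v`
    set Y : Finset E := univ.filter (fun f => x f ≠ 0 ∧ (src f = v ∨ dst f = v)) with hY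
    have hcard : ((Y.card : ℕ) : ZMod 2) = 0 := by
      rw [← hx.2 v]
      unfold bd2
      rw [hY, card_filter, Nat.cast_sum]
      refine sum_congr rfl fun f _ => ?_
      by_cases hf : x f = 0
      · simp [hf]
      · have hlo := (hES f hf).1
        have h1 : x f = 1 := by
          revert hf
          generalize x f = y
          revert y
          decide
        by_cases h5 : src f = v
        · have h6 : dst f ≠ v := fun h => hlo (h5.trans h.symm)
          simp [h1, h5, h6]
        · by_cases h6 : dst f = v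
          · simp [h1, h5, h6]
          · simp [h5, h6]
    have heY : e ∈ Y := mem_filter.2 ⟨mem_univ _, he, hev⟩
    have h2 : 1 < Y.card := by
      have h3 : 0 < Y.card := card_pos.2 ⟨e, heY⟩
      by_contra hcon
      have h4 : Y.card = 1 := by omega
      rw [h4] at hcard
      revert hcard
      decide
    -- the other end
    have hoth : ∀ f ∈ Y, ∃ b ∈ U, Adj src dst v b ∧ Jn src dst f v b := by
      intro f hf
      obtain ⟨_, hf0, hfv⟩ := mem_filter.1 hf
      have hlo := (hES f hf0).1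
      rcases hfv with h | h
      · refine ⟨dst f, mem_filter.2 ⟨mem_univ _, f, hf0, Or.inr rfl⟩, ⟨?_, f, Or.inl ⟨h, rfl⟩⟩,
          Or.inl ⟨h, rfl⟩⟩
        rw [← h]
        exact hlo
      · refine ⟨src f, mem_filter.2 ⟨mem_univ _, f, hf0, Or.inl rfl⟩, ⟨?_, f, Or.inr ⟨rfl, h⟩⟩,
          Or.inr ⟨rfl, h⟩⟩
        rw [← h]
        exact hlo.symm
    obtain ⟨b, hb, hvb, hjb⟩ := hoth e heY
    by_cases hba : b = a
    · obtain ⟨f, hf, hfe⟩ := exists_mem_ne h2 e
      obtain ⟨c, hc, hvc, hjc⟩ := hoth f hf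
      refine ⟨c, hc, hvc, ?_⟩
      rintro rfl
      rw [hba] at hjb
      exact hfe (hP f e v c hvc.1 hjc hjb)
    · exact ⟨b, hb, hvb, hba⟩
  obtain ⟨k, z, hz, hzU⟩ := exists_circ (Ad := Adj src dst) (fun a b h => adj_symm h)
    (fun a h => h.1 rfl) hne h2
  refine ⟨k, z, hz, fun i hi => ?_⟩
  obtain ⟨_, e, he, hev⟩ := mem_filter.1 (hzU i)
  have h5 := hES e he
  rcases hev with h | h
  · rw [h] at h5
    exact h5.2.1 hi
  · rw [h] at h5
    exact h5.2.2 hi

/-- **5-flows**: short induced circuits -/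
theorem flowI {k l : ℕ} (hkl : (k = 0 ∧ l ≤ 19) ∨ (k ≤ 31 ∧ l ≤ 11)) (src dst : E → V)
    (h : ClI k l src dst) (hb : Br src dst ∅ ∅) : FlowOn src dst ∅ ∅ := by
  classical
  by_contra hn
  obtain ⟨s, d, ⟨S, hS, hc⟩, hM⟩ := exists_minC (ccI k l) src dst h hb hn
  have hG := girthC contract_all hM
  have hT := threeC contract_all hM
  have hP : NoPar s d := fun e e' x y hxy h1 h2 => no_par contract_all hM hxy h1 h2
  by_cases hno : ∀ e, s e = d e
  · exact hM.nf (flow_of_loops hno)
  push Not at hno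
  obtain ⟨e0, he0⟩ := hno
  rcases hkl with ⟨rfl, hl⟩ | ⟨hk, hl⟩
  · have hS0 : S = ∅ := card_eq_zero.1 (by omega)
    obtain ⟨m, z, hm, hz⟩ := exists_long (Ad := Adj s d) (fun a b h => adj_symm h)
      (fun a h => h.1 rfl) hG (U := univ.filter (fun v => ∃ y, Adj s d v y))
      ⟨s e0, mem_filter.2 ⟨mem_univ _, d e0, he0, e0, Or.inl ⟨rfl, rfl⟩⟩⟩ (by
      intro v hv a
      obtain ⟨_, y, hy⟩ := mem_filter.1 hv
      obtain ⟨b1, b2, b3, h1, h2, h3, n12, n13, n23⟩ := hT v y hy
      have hmem : ∀ b, Adj s d v b → b ∈ univ.filter (fun v => ∃ y, Adj s d v y) :=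
        fun b hb => mem_filter.2 ⟨mem_univ _, v, adj_symm hb⟩
      by_cases e1 : b1 = a
      · exact ⟨b2, hmem _ h2, b3, hmem _ h3, h2, h3, fun h => n12 (e1.trans h.symm),
          fun h => n13 (e1.trans h.symm), n23⟩
      · by_cases e2 : b2 = a
        · exact ⟨b1, hmem _ h1, b3, hmem _ h3, h1, h3, e1, fun h => n23 (e2.trans h.symm), n13⟩
        · exact ⟨b1, hmem _ h1, b2, hmem _ h2, h1, h2, e1, e2, n12⟩)
    have := hc m z hz (fun i => by rw [hS0]; exact notMem_empty _)
    omega
  · have hbot : ZF s d (ES s d S) = ⊥ := by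
      rw [Submodule.eq_bot_iff]
      intro x hx
      by_contra h0
      obtain ⟨m, z, hz, hzS⟩ := circ_of_even hP hx h0
      have h1 := hc m z hz hzS
      exact hG m (by omega) z hz.inj hz.adj
    obtain ⟨h63, h6, hne⟩ := Surfx.common edge62_all hG hT hP he0 S (by omega)
    have e1 := dim V E s d (ES s d S) (VS s d S) hne (Surfx.hends S)
    have e2 := degS V E s d S hT
    rw [hbot, finrank_bot] at e1
    exact Surfx.numC (k := S.card) e1 e2 h63 h6 (by omega)

end

end Pool.Agent.Q165.IC
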