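import Pool.Agent.Q165.SG.Rep

/-!
# Induced circuits and contractions
-/

set_option autoImplicit false
set_option linter.unusedSectionVars false

namespace Pool.Agent.Q165.IC

open Finset Pool.Agent.TH676.Z Pool.Agent.Q165.SG

section

variable {V : Type}

/-- an induced circuit of length `k + 3` -/
structure Circ (Ad : V → V → Prop) (k : ℕ) (z : Fin (k + 3) → V) : Prop where
  inj : Function.Injective z
  adj : ∀ i, Ad (z i) (z (i + 1))
  ind : ∀ i j, Ad (z i) (z j) → j = i + 1 ∨ i = j + 1

theorem Circ.rot {Ad : V → V → Prop} {k : ℕ} {z : Fin (k + 3) → V} (h : Circ Ad k z)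
    (c : Fin (k + 3)) : Circ Ad k (fun i => z (i + c)) := by
  refine ⟨fun i j hij => add_right_cancel (h.inj hij), fun i => ?_, fun i j hij => ?_⟩
  · change Ad (z (i + c)) (z (i + 1 + c))
    rw [add_right_comm]
    exact h.adj _
  · rcases h.ind _ _ hij with h1 | h1
    · rw [add_right_comm] at h1
      exact Or.inl (add_right_cancel h1)
    · rw [add_right_comm] at h1
      exact Or.inr (add_right_cancel h1)

theorem one_ne_zero' (k : ℕ) : (1 : Fin (k + 3)) ≠ 0 := by
  intro h
  have := congrArg Fin.val h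
  simp at this

theorem last_add_one (k : ℕ) : (Fin.last (k + 2)) + 1 = 0 := by
  simp

theorem succ_add_one {k : ℕ} {i : Fin (k + 3)} (hi : i ≠ Fin.last (k + 2)) :
    (i.succ : Fin (k + 4)) + 1 = (i + 1).succ := by
  apply Fin.ext
  rw [Fin.val_add_one, Fin.val_succ, Fin.val_succ, Fin.val_add_one]
  rw [if_neg hi, if_neg]
  intro h
  apply hi
  have := congrArg Fin.val h
  rw [Fin.val_succ, Fin.val_last] at this
  exact Fin.ext (by rw [Fin.val_last]; omega)

/-- the relation between adjacency before and after the contraction -/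
structure Con (Ad Ad' : V → V → Prop) (u v : V) : Prop where
  ne : u ≠ v
  uv : Ad u v
  symm : ∀ {a b}, Ad a b → Ad b a
  irr : ∀ a, ¬ Ad a a
  symm' : ∀ {a b}, Ad' a b → Ad' b a
  off : ∀ a b, a ≠ u → a ≠ v → b ≠ u → b ≠ v → (Ad a b ↔ Ad' a b)
  at_u : ∀ b, b ≠ u → b ≠ v → (Ad' u b ↔ Ad u b ∨ Ad v b)
  at_v : ∀ b, ¬ Ad' v b

variable {Ad Ad' : V → V → Prop} {u v : V}

/-- one of the two ends of the contracted edge -/
theorem one_end (h : Con Ad Ad' u v) {k : ℕ} {z : Fin (k + 3) → V} (hz : Circ Ad' k z)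
    (h0 : z 0 = u) {y : V} (hy : y = u ∨ y = v) (h1 : Ad y (z 1))
    (h2 : Ad y (z (Fin.last (k + 2)))) : Circ Ad k (Function.update z 0 y) := by
  have hzv : ∀ i, z i ≠ v := fun i hi => h.at_v (z (i + 1)) (hi ▸ hz.adj i)
  have hzu : ∀ i, i ≠ 0 → z i ≠ u := fun i hi hiu => hi (hz.inj (hiu.trans h0.symm))
  have hzy : ∀ i, i ≠ 0 → z i ≠ y := by
    intro i hi
    rcases hy with rfl | rfl
    · exact hzu i hi
    · exact hzv i
  have hyn : ∀ i, i ≠ 0 → Ad y (z i) → Ad' (z 0) (z i) := by
    intro i hi hyi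
    rw [h0, h.at_u _ (hzu i hi) (hzv i)]
    rcases hy with rfl | rfl
    · exact Or.inl hyi
    · exact Or.inr hyi
  refine ⟨?_, ?_, ?_⟩
  · intro i j hij
    by_cases hi : i = 0 <;> by_cases hj : j = 0
    · rw [hi, hj]
    · rw [hi, Function.update_self, Function.update_of_ne hj] at hij
      exact absurd hij.symm (hzy j hj)
    · rw [hj, Function.update_self, Function.update_of_ne hi] at hij
      exact absurd hij (hzy i hi)
    · rw [Function.update_of_ne hi, Function.update_of_ne hj] at hij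
      exact hz.inj hij
  · intro i
    by_cases hi : i = 0
    · rw [hi, zero_add, Function.update_self, Function.update_of_ne (one_ne_zero' k)]
      exact h1
    · by_cases hl : i = Fin.last (k + 2)
      · rw [hl, last_add_one, Function.update_self, Function.update_of_ne (hl ▸ hi)]
        exact h.symm h2
      · have hi1 : i + 1 ≠ 0 := by
          intro h3
          have h4 := congrArg Fin.val h3
          rw [Fin.val_add_one, if_neg hl] at h4
          simp at h4
        rw [Function.update_of_ne hi, Function.update_of_ne hi1]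
        exact (h.off _ _ (hzu i hi) (hzv i) (hzu _ hi1) (hzv _)).2 (hz.adj i)
  · intro i j hij
    by_cases hi : i = 0 <;> by_cases hj : j = 0
    · rw [hi, hj] at hij
      exact absurd hij (h.irr _)
    · rw [hi, Function.update_self, Function.update_of_ne hj] at hij
      rw [hi]
      exact hz.ind _ _ (hyn j hj hij)
    · rw [hj, Function.update_self, Function.update_of_ne hi] at hij
      rw [hj]
      exact hz.ind _ _ (h.symm' (hyn i hi (h.symm hij)))
    · rw [Function.update_of_ne hi, Function.update_of_ne hj] at hij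
      exact hz.ind _ _ ((h.off _ _ (hzu i hi) (hzv i) (hzu _ hj) (hzv _)).1 hij)

/-- both ends of the contracted edge -/
theorem two_ends (h : Con Ad Ad' u v) {k : ℕ} {z : Fin (k + 3) → V} (hz : Circ Ad' k z)
    (h0 : z 0 = u) {y y' : V} (hy : (y = u ∧ y' = v) ∨ (y = v ∧ y' = u)) (h1 : Ad y (z 1))
    (h2 : Ad y' (z (Fin.last (k + 2)))) (h3 : ¬ Ad y (z (Fin.last (k + 2))))
    (h4 : ¬ Ad y' (z 1)) : Circ Ad (k + 1) (Fin.cons y' (Function.update z 0 y)) := by
  have hzv : ∀ i, z i ≠ v := fun i hi => h.at_v (z (i + 1)) (hi ▸ hz.adj i)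
  have hzu : ∀ i, i ≠ 0 → z i ≠ u := fun i hi hiu => hi (hz.inj (hiu.trans h0.symm))
  have hyy : Ad y' y := by
    rcases hy with ⟨rfl, rfl⟩ | ⟨rfl, rfl⟩
    · exact h.symm h.uv
    · exact h.uv
  have hyne : y' ≠ y := by
    rcases hy with ⟨rfl, rfl⟩ | ⟨rfl, rfl⟩
    · exact h.ne.symm
    · exact h.ne
  have hzy : ∀ i, i ≠ 0 → z i ≠ y := by
    intro i hi
    rcases hy with ⟨rfl, rfl⟩ | ⟨rfl, rfl⟩
    · exact hzu i hi
    · exact hzv i
  have hzy' : ∀ i, i ≠ 0 → z i ≠ y' := by
    intro i hi
    rcases hy with ⟨rfl, rfl⟩ | ⟨rfl, rfl⟩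
    · exact hzv i
    · exact hzu i hi
  have hyn : ∀ i, i ≠ 0 → Ad y (z i) → Ad' (z 0) (z i) := by
    intro i hi hyi
    rw [h0, h.at_u _ (hzu i hi) (hzv i)]
    rcases hy with ⟨rfl, rfl⟩ | ⟨rfl, rfl⟩
    · exact Or.inl hyi
    · exact Or.inr hyi
  have hyn' : ∀ i, i ≠ 0 → Ad y' (z i) → Ad' (z 0) (z i) := by
    intro i hi hyi
    rw [h0, h.at_u _ (hzu i hi) (hzv i)]
    rcases hy with ⟨rfl, rfl⟩ | ⟨rfl, rfl⟩
    · exact Or.inr hyi
    · exact Or.inl hyi
  -- neighbours of `z 0`
  have hend : ∀ i, Ad' (z 0) (z i) → i = 1 ∨ i = Fin.last (k + 2) := by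
    intro i hi
    rcases hz.ind _ _ hi with h5 | h5
    · left
      rw [h5, zero_add]
    · right
      have h6 : i + 1 = Fin.last (k + 2) + 1 := by rw [last_add_one, ← h5]
      exact add_right_cancel h6
  have hl0 : Fin.last (k + 2) ≠ 0 := by
    intro h5
    have := congrArg Fin.val h5
    simp at this
  have hupd : ∀ i, i ≠ 0 → Function.update z 0 y i = z i := fun i hi =>
    Function.update_of_ne hi _ _
  have hs0 : ∀ i : Fin (k + 3), (i.succ : Fin (k + 4)) ≠ 0 := fun i => Fin.succ_ne_zero i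
  refine ⟨?_, ?_, ?_⟩
  · rw [Fin.cons_injective_iff]
    constructor
    · rintro ⟨i, hi⟩
      by_cases hi0 : i = 0
      · rw [hi0, Function.update_self] at hi
        exact hyne hi.symm
      · rw [hupd i hi0] at hi
        exact hzy' i hi0 hi
    · intro i j hij
      by_cases hi : i = 0 <;> by_cases hj : j = 0
      · rw [hi, hj]
      · rw [hi, Function.update_self, hupd j hj] at hij
        exact absurd hij.symm (hzy j hj)
      · rw [hj, Function.update_self, hupd i hi] at hij
        exact absurd hij (hzy i hi)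
      · rw [hupd i hi, hupd j hj] at hij
        exact hz.inj hij
  · intro i
    refine Fin.cases ?_ (fun i => ?_) i
    · rw [zero_add, Fin.cons_zero, show (1 : Fin (k + 4)) = Fin.succ 0 from rfl, Fin.cons_succ,
        Function.update_self]
      exact hyy
    · rw [Fin.cons_succ]
      by_cases hl : i = Fin.last (k + 2)
      · have h5 : (i.succ : Fin (k + 4)) + 1 = 0 := by
          rw [hl, Fin.succ_last]
          simp
        rw [h5, Fin.cons_zero, hl, hupd _ hl0]
        exact h.symm h2
      · rw [succ_add_one hl, Fin.cons_succ]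
        have hi1 : i + 1 ≠ 0 := by
          intro h3
          have h4 := congrArg Fin.val h3
          rw [Fin.val_add_one, if_neg hl] at h4
          simp at h4
        rw [hupd _ hi1]
        by_cases hi : i = 0
        · rw [hi, Function.update_self, zero_add]
          exact h1
        · rw [hupd i hi]
          exact (h.off _ _ (hzu i hi) (hzv i) (hzu _ hi1) (hzv _)).2 (hz.adj i)
  · have key0 : ∀ i : Fin (k + 3), Ad y' (Function.update z 0 y i) →
        i = 0 ∨ i = Fin.last (k + 2) := by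
      intro i hi
      by_cases hi0 : i = 0
      · exact Or.inl hi0
      · rw [hupd i hi0] at hi
        rcases hend i (hyn' i hi0 hi) with h5 | h5
        · rw [h5] at hi
          exact absurd hi h4
        · exact Or.inr h5
    have hsl : ((Fin.last (k + 2)).succ : Fin (k + 4)) + 1 = 0 := by
      rw [Fin.succ_last]
      simp
    have keyI : ∀ i j : Fin (k + 3), Ad (Function.update z 0 y i) (Function.update z 0 y j) →
        j = i + 1 ∨ i = j + 1 := by
      intro i j hij
      by_cases hi : i = 0 <;> by_cases hj : j = 0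
      · rw [hi, hj] at hij
        exact absurd hij (h.irr _)
      · rw [hi, Function.update_self, hupd j hj] at hij
        rw [hi]
        exact hz.ind _ _ (hyn j hj hij)
      · rw [hj, Function.update_self, hupd i hi] at hij
        rw [hj]
        exact hz.ind _ _ (h.symm' (hyn i hi (h.symm hij)))
      · rw [hupd i hi, hupd j hj] at hij
        exact hz.ind _ _ ((h.off _ _ (hzu i hi) (hzv i) (hzu _ hj) (hzv _)).1 hij)
    have keyL : ∀ i j : Fin (k + 3), Ad (Function.update z 0 y i) (Function.update z 0 y j) →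
        j = i + 1 → i ≠ Fin.last (k + 2) := by
      intro i j hij hj hl
      rw [hj, hl, last_add_one, Function.update_self, hupd _ hl0] at hij
      exact h3 (h.symm hij)
    intro i j
    refine Fin.cases ?_ (fun i => ?_) i <;> refine Fin.cases ?_ (fun j => ?_) j
    · intro hij
      exact absurd hij (h.irr _)
    · intro hij
      rw [Fin.cons_zero, Fin.cons_succ] at hij
      rcases key0 j hij with h5 | h5
      · left
        rw [h5, zero_add]
        rfl
      · right
        rw [h5, hsl]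
    · intro hij
      rw [Fin.cons_zero, Fin.cons_succ] at hij
      rcases key0 i (h.symm hij) with h5 | h5
      · right
        rw [h5, zero_add]
        rfl
      · left
        rw [h5, hsl]
    · intro hij
      rw [Fin.cons_succ, Fin.cons_succ] at hij
      rcases keyI i j hij with h5 | h5
      · left
        rw [succ_add_one (keyL i j hij h5), h5]
      · right
        rw [succ_add_one (keyL j i (h.symm hij) h5), h5]

/-- an induced circuit of the contraction is not longer than some induced circuit -/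
theorem lift (h : Con Ad Ad' u v) {k : ℕ} {z : Fin (k + 3) → V} (hz : Circ Ad' k z) :
    ∃ (k' : ℕ) (z' : Fin (k' + 3) → V), k ≤ k' ∧ Circ Ad k' z' ∧
      ∀ i, (∃ j, z' i = z j) ∨ (z' i = v ∧ ∃ j, z j = u) := by
  by_cases hu : ∃ c, z c = u
  · obtain ⟨c, hc⟩ := hu
    have hz1 := hz.rot c
    set w : Fin (k + 3) → V := fun i => z (i + c) with hw
    have h0 : w 0 = u := by
      rw [hw]
      simp only [zero_add]
      exact hc
    have hzv : ∀ i, w i ≠ v := fun i hi => h.at_v (w (i + 1)) (hi ▸ hz1.adj i)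
    have hzu : ∀ i, i ≠ 0 → w i ≠ u := fun i hi hiu => hi (hz1.inj (hiu.trans h0.symm))
    have hl0 : Fin.last (k + 2) ≠ 0 := by
      intro h5
      have := congrArg Fin.val h5
      simp at this
    have ha : Ad u (w 1) ∨ Ad v (w 1) := by
      have h1 := hz1.adj 0
      rw [zero_add, h0] at h1
      exact (h.at_u _ (hzu 1 (one_ne_zero' k)) (hzv 1)).1 h1
    have hb : Ad u (w (Fin.last (k + 2))) ∨ Ad v (w (Fin.last (k + 2))) := by
      have h1 := hz1.adj (Fin.last (k + 2))
      rw [last_add_one, h0] at h1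
      exact (h.at_u _ (hzu _ hl0) (hzv _)).1 (h.symm' h1)
    have hr1 : ∀ y, (y = u ∨ y = v) → ∀ i, (∃ j, Function.update w 0 y i = z j) ∨
        (Function.update w 0 y i = v ∧ ∃ j, z j = u) := by
      intro y hy i
      by_cases hi : i = 0
      · rw [hi, Function.update_self]
        rcases hy with rfl | rfl
        · exact Or.inl ⟨c, hc.symm⟩
        · exact Or.inr ⟨rfl, c, hc⟩
      · rw [Function.update_of_ne hi]
        exact Or.inl ⟨i + c, rfl⟩
    have hr2 : ∀ y y', (y = u ∨ y = v) → (y' = u ∨ y' = v) → ∀ i : Fin (k + 4),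
        (∃ j, (Fin.cons y' (Function.update w 0 y) : Fin (k + 4) → V) i = z j) ∨
        ((Fin.cons y' (Function.update w 0 y) : Fin (k + 4) → V) i = v ∧ ∃ j, z j = u) := by
      intro y y' hy hy' i
      refine Fin.cases ?_ (fun i => ?_) i
      · rw [Fin.cons_zero]
        rcases hy' with rfl | rfl
        · exact Or.inl ⟨c, hc.symm⟩
        · exact Or.inr ⟨rfl, c, hc⟩
      · rw [Fin.cons_succ]
        exact hr1 y hy i
    by_cases h1 : Ad u (w 1) ∧ Ad u (w (Fin.last (k + 2)))
    · exact ⟨k, _, le_rfl, one_end h hz1 h0 (Or.inl rfl) h1.1 h1.2, hr1 u (Or.inl rfl)⟩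
    by_cases h2 : Ad v (w 1) ∧ Ad v (w (Fin.last (k + 2)))
    · exact ⟨k, _, le_rfl, one_end h hz1 h0 (Or.inr rfl) h2.1 h2.2, hr1 v (Or.inr rfl)⟩
    rcases ha with ha | ha
    · have hb' : ¬ Ad u (w (Fin.last (k + 2))) := fun h5 => h1 ⟨ha, h5⟩
      have hb2 := hb.resolve_left hb'
      exact ⟨k + 1, _, by omega, two_ends h hz1 h0 (Or.inl ⟨rfl, rfl⟩) ha hb2 hb'
        (fun h5 => h2 ⟨h5, hb2⟩), hr2 u v (Or.inl rfl) (Or.inr rfl)⟩
    · have hb' : ¬ Ad v (w (Fin.last (k + 2))) := fun h5 => h2 ⟨ha, h5⟩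
      have hb2 := hb.resolve_right hb'
      exact ⟨k + 1, _, by omega, two_ends h hz1 h0 (Or.inr ⟨rfl, rfl⟩) ha hb2 hb'
        (fun h5 => h1 ⟨h5, hb2⟩), hr2 v u (Or.inr rfl) (Or.inl rfl)⟩
  · push Not at hu
    have hzv : ∀ i, z i ≠ v := fun i hi => h.at_v (z (i + 1)) (hi ▸ hz.adj i)
    refine ⟨k, z, le_rfl, ⟨hz.inj, fun i => ?_, fun i j hij => ?_⟩, fun i => Or.inl ⟨i, rfl⟩⟩
    · exact (h.off _ _ (hu _) (hzv _) (hu _) (hzv _)).2 (hz.adj i)
    · exact hz.ind _ _ ((h.off _ _ (hu _) (hzv _) (hu _) (hzv _)).1 hij)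

end

section

variable {V E : Type} [Fintype V] [DecidableEq V] [Fintype E] [DecidableEq E]

theorem con_adj {src dst : E → V} {e : E} (hne : src e ≠ dst e) :
    Con (Adj src dst) (Adj (ctr (src e) (dst e) ∘ src) (ctr (src e) (dst e) ∘ dst))
      (src e) (dst e) := by
  refine ⟨hne, ⟨hne, e, Or.inl ⟨rfl, rfl⟩⟩, fun h => adj_symm h, fun a h => h.1 rfl,
    fun h => adj_symm h, ?_, ?_, ?_⟩
  · intro a b ha1 ha2 hb1 hb2
    constructor
    · intro h
      exact (adj_ctr_iff h.1).2 ⟨a, b, ctr_of_ne ha2, ctr_of_ne hb2, h⟩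
    · intro h
      obtain ⟨a', b', h1, h2, h3⟩ := (adj_ctr_iff h.1).1 h
      have e1 : a' = a := by
        unfold ctr at h1
        split_ifs at h1 with h4
        · exact absurd h1.symm ha1
        · exact h1
      have e2 : b' = b := by
        unfold ctr at h2
        split_ifs at h2 with h4
        · exact absurd h2.symm hb1
        · exact h2
      rwa [e1, e2] at h3
  · intro b hb1 hb2
    have hub : src e ≠ b := fun h => hb1 h.symm
    rw [adj_ctr_iff hub]
    constructor
    · rintro ⟨a', b', h1, h2, h3⟩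
      have e2 : b' = b := by
        unfold ctr at h2
        split_ifs at h2 with h4
        · exact absurd h2.symm hb1
        · exact h2
      rw [e2] at h3
      unfold ctr at h1
      split_ifs at h1 with h4
      · exact Or.inr (h4 ▸ h3)
      · exact Or.inl (h1 ▸ h3)
    · rintro (h | h)
      · exact ⟨_, _, ctr_u _ _ hne, ctr_of_ne hb2, h⟩
      · exact ⟨_, _, ctr_v _ _, ctr_of_ne hb2, h⟩
  · rintro b ⟨_, e', he'⟩
    rcases he' with ⟨h1, _⟩ | ⟨_, h1⟩
    · exact ctr_ne_v hne _ h1
    · exact ctr_ne_v hne _ h1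

/-- after the deletion of at most `k` vertices all induced circuits have at most `l` edges -/
def ClI (k l : ℕ) (src dst : E → V) : Prop :=
  ∃ S : Finset V, S.card ≤ k ∧ ∀ (m : ℕ) (z : Fin (m + 3) → V), Circ (Adj src dst) m z →
    (∀ i, z i ∉ S) → m + 3 ≤ l

theorem ccI (k l : ℕ) : Pool.Agent.Y358.IN.CC (V := V) (E := E) (ClI k l) := by
  rintro src dst e ⟨S, hS, hc⟩ hne
  refine ⟨S.image (ctr (src e) (dst e)), card_image_le.trans hS, ?_⟩
  intro m z hz hzS
  have hcon := con_adj hne
  obtain ⟨m', z', h1, h2, h3⟩ := lift hcon hz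
  have hzv : ∀ i, z i ≠ dst e := fun i hi => hcon.at_v (z (i + 1)) (hi ▸ hz.adj i)
  refine le_trans (by omega) (hc m' z' h2 ?_)
  intro i hi
  rcases h3 i with ⟨j, hj⟩ | ⟨hv, j, hj⟩
  · rw [hj] at hi
    exact hzS j (mem_image.2 ⟨z j, hi, ctr_of_ne (hzv j)⟩)
  · rw [hv] at hi
    exact hzS j (mem_image.2 ⟨dst e, hi, by rw [ctr_v, hj]⟩)

end

end Pool.Agent.Q165.IC
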