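import Pool.Agent.Q165.IC.Lift
import Pool.Agent.Q165.TI.Alpha

/-!
# Longest induced paths
-/

set_option autoImplicit false
set_option linter.unusedSectionVars false

namespace Pool.Agent.Q165.IC

open Finset Pool.Agent.Y335.FL Pool.Agent.Q165.TI

section

variable {V : Type} [DecidableEq V] {Ad : V → V → Prop}

/-- an induced path with `n` edges in the set `U` -/
structure IP (Ad : V → V → Prop) (U : Finset V) (n : ℕ) (p : ℕ → V) : Prop where
  mem : ∀ i, i ≤ n → p i ∈ U
  adj : ∀ i, i < n → Ad (p i) (p (i + 1))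
  ne : ∀ i j, i < j → j ≤ n → p i ≠ p j
  ind : ∀ i j, i + 2 ≤ j → j ≤ n → ¬ Ad (p i) (p j)

theorem IP.lt {U : Finset V} {n : ℕ} {p : ℕ → V} (h : IP Ad U n p) : n < U.card := by
  have h1 : ((range (n + 1)).image p).card = n + 1 := by
    rw [card_image_of_injOn, card_range]
    intro i hi j hj hij
    simp only [coe_range, Set.mem_Iio] at hi hj
    rcases lt_trichotomy i j with h2 | h2 | h2
    · exact absurd hij (h.ne i j h2 (by omega))
    · exact h2
    · exact absurd hij.symm (h.ne j i h2 (by omega))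
  have h2 : (range (n + 1)).image p ⊆ U := by
    intro x hx
    obtain ⟨i, hi, rfl⟩ := mem_image.1 hx
    rw [mem_range] at hi
    exact h.mem i (by omega)
  have := card_le_card h2
  omega

/-- a longest induced path -/
theorem exists_longest {U : Finset V} (hU : U.Nonempty) :
    ∃ (n : ℕ) (p : ℕ → V), IP Ad U n p ∧ ∀ m q, IP Ad U m q → m ≤ n := by
  classical
  obtain ⟨x, hx⟩ := hU
  have h0 : ∃ p, IP Ad U 0 p := ⟨fun _ => x, fun _ _ => hx, fun i hi => by omega,
    fun i j h1 h2 => by omega, fun i j h1 h2 => by omega⟩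
  set s : Finset ℕ := (range U.card).filter (fun n => ∃ p, IP Ad U n p) with hs
  have hne : s.Nonempty := by
    obtain ⟨p, hp⟩ := h0
    exact ⟨0, mem_filter.2 ⟨mem_range.2 hp.lt, p, hp⟩⟩
  obtain ⟨_, p, hp⟩ := mem_filter.1 (s.max'_mem hne)
  refine ⟨s.max' hne, p, hp, fun m q hq => ?_⟩
  exact s.le_max' m (mem_filter.2 ⟨mem_range.2 hq.lt, q, hq⟩)

/-- the first neighbour on the path of a neighbour of its end -/
theorem contact (hs : ∀ a b, Ad a b → Ad b a) (hi : ∀ a, ¬ Ad a a) {U : Finset V} {n : ℕ}
    {p : ℕ → V} (hp : IP Ad U n p) (hmax : ∀ m q, IP Ad U m q → m ≤ n) {x : V} (hx : x ∈ U)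
    (h0 : Ad (p 0) x) (h1 : x ≠ p 1) : (∀ i, i ≤ n → x ≠ p i) ∧
      ∃ k, k + 1 ≤ n ∧ Ad x (p (k + 1)) ∧ ∀ j, j < k → ¬ Ad x (p (j + 1)) := by
  classical
  have hoff : ∀ i, i ≤ n → x ≠ p i := by
    intro i hin hxi
    rcases Nat.lt_or_ge i 2 with h | h
    · interval_cases i
      · exact hi _ (hxi ▸ h0)
      · exact h1 hxi
    · exact hp.ind 0 i (by omega) hin (hxi ▸ h0)
  refine ⟨hoff, ?_⟩
  have hex : ∃ k, k + 1 ≤ n ∧ Ad x (p (k + 1)) := by
    by_contra hcon
    push Not at hcon
    have hq : IP Ad U (n + 1) (fun i => if i = 0 then x else p (i - 1)) := by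
      refine ⟨?_, ?_, ?_, ?_⟩
      · intro i hin
        by_cases h : i = 0
        · simp only [if_pos h]
          exact hx
        · simp only [if_neg h]
          exact hp.mem _ (by omega)
      · intro i hin
        by_cases h : i = 0
        · subst h
          simp only [if_pos rfl, if_neg (show ¬ 0 + 1 = 0 by omega)]
          exact hs _ _ h0
        · simp only [if_neg h, if_neg (show ¬ i + 1 = 0 by omega)]
          have := hp.adj (i - 1) (by omega)
          rwa [show i - 1 + 1 = i + 1 - 1 by omega] at this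
      · intro i j hij hj
        by_cases h : i = 0
        · simp only [if_pos h, if_neg (show ¬ j = 0 by omega)]
          exact hoff _ (by omega)
        · simp only [if_neg h, if_neg (show ¬ j = 0 by omega)]
          exact hp.ne _ _ (by omega) (by omega)
      · intro i j hij hj
        by_cases h : i = 0
        · simp only [if_pos h, if_neg (show ¬ j = 0 by omega)]
          have := hcon (j - 2) (by omega)
          rwa [show j - 2 + 1 = j - 1 by omega] at this
        · simp only [if_neg h, if_neg (show ¬ j = 0 by omega)]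
          exact hp.ind _ _ (by omega) (by omega)
    have := hmax _ _ hq
    omega
  obtain ⟨hk1, hk2⟩ := Nat.find_spec hex
  refine ⟨Nat.find hex, hk1, hk2, fun j hj hadj => ?_⟩
  exact Nat.find_min hex hj ⟨by omega, hadj⟩

theorem succ_add_one' {n : ℕ} {i : Fin (n + 1)} (hi : i ≠ Fin.last n) :
    (i.succ : Fin (n + 2)) + 1 = (i + 1).succ := by
  apply Fin.ext
  rw [Fin.val_add_one, Fin.val_succ, Fin.val_succ, Fin.val_add_one]
  rw [if_neg hi, if_neg]
  intro h
  apply hi
  have := congrArg Fin.val h
  rw [Fin.val_succ, Fin.val_last] at this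
  exact Fin.ext (by rw [Fin.val_last]; omega)

/-- the induced circuit through the first neighbour -/
theorem circ_of (hs : ∀ a b, Ad a b → Ad b a) (hi : ∀ a, ¬ Ad a a) {U : Finset V} {n : ℕ}
    {p : ℕ → V} (hp : IP Ad U n p) {x : V} (h0 : Ad (p 0) x) (hoff : ∀ i, i ≤ n → x ≠ p i)
    {k : ℕ} (hk : k + 1 ≤ n) (hk1 : Ad x (p (k + 1))) (hk2 : ∀ j, j < k → ¬ Ad x (p (j + 1))) :
    Circ Ad k (Fin.cons x (fun i : Fin (k + 2) => p i.val)) := by
  have hsl : ((Fin.last (k + 1)).succ : Fin (k + 3)) + 1 = 0 := by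
    rw [Fin.succ_last]
    simp
  have keyx : ∀ i : Fin (k + 2), Ad x (p i.val) → i = 0 ∨ i = Fin.last (k + 1) := by
    intro i hxi
    rcases Nat.eq_zero_or_pos i.val with h | h
    · exact Or.inl (Fin.ext h)
    · rcases Nat.lt_or_ge i.val (k + 1) with h2 | h2
      · have := hk2 (i.val - 1) (by omega)
        rw [Nat.sub_add_cancel h] at this
        exact absurd hxi this
      · exact Or.inr (Fin.ext (by rw [Fin.val_last]; omega))
  refine ⟨?_, ?_, ?_⟩
  · rw [Fin.cons_injective_iff]
    constructor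
    · rintro ⟨i, hi'⟩
      exact hoff i.val (by omega) hi'.symm
    · intro i j hij
      rcases lt_trichotomy i.val j.val with h2 | h2 | h2
      · exact absurd hij (hp.ne _ _ h2 (by omega))
      · exact Fin.ext h2
      · exact absurd hij.symm (hp.ne _ _ h2 (by omega))
  · intro i
    refine Fin.cases ?_ (fun i => ?_) i
    · rw [zero_add, Fin.cons_zero, show (1 : Fin (k + 3)) = Fin.succ 0 from rfl, Fin.cons_succ]
      exact hs _ _ h0
    · rw [Fin.cons_succ]
      by_cases hl : i = Fin.last (k + 1)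
      · rw [hl, hsl, Fin.cons_zero, Fin.val_last]
        exact hs _ _ hk1
      · rw [succ_add_one' hl, Fin.cons_succ, Fin.val_add_one, if_neg hl]
        have hlt : i.val < k + 1 := by
          rcases Nat.lt_or_ge i.val (k + 1) with h5 | h5
          · exact h5
          · exact absurd (Fin.ext (by rw [Fin.val_last]; omega)) hl
        exact hp.adj _ (by omega)
  · have keyI : ∀ i j : Fin (k + 2), i.val < j.val → Ad (p i.val) (p j.val) →
        (j.succ : Fin (k + 3)) = i.succ + 1 := by
      intro i j hij hadj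
      have h2 : j.val = i.val + 1 := by
        by_contra hcon
        exact hp.ind _ _ (by omega) (by omega) hadj
      have hl : i ≠ Fin.last (k + 1) := by
        intro h
        have := congrArg Fin.val h
        rw [Fin.val_last] at this
        omega
      rw [succ_add_one' hl]
      congr 1
      apply Fin.ext
      rw [Fin.val_add_one, if_neg hl]
      exact h2
    intro i j
    refine Fin.cases ?_ (fun i => ?_) i <;> refine Fin.cases ?_ (fun j => ?_) j
    · intro hij
      exact absurd hij (hi _)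
    · intro hij
      rw [Fin.cons_zero, Fin.cons_succ] at hij
      rcases keyx j hij with h5 | h5
      · left
        rw [h5, zero_add]
        rfl
      · right
        rw [h5, hsl]
    · intro hij
      rw [Fin.cons_zero, Fin.cons_succ] at hij
      rcases keyx i (hs _ _ hij) with h5 | h5
      · right
        rw [h5, zero_add]
        rfl
      · left
        rw [h5, hsl]
    · intro hij
      rw [Fin.cons_succ, Fin.cons_succ] at hij
      rcases lt_trichotomy i.val j.val with h2 | h2 | h2
      · exact Or.inl (keyI i j h2 hij)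
      · rw [h2] at hij
        exact absurd hij (hi _)
      · exact Or.inr (keyI j i h2 (hs _ _ hij))

/-- two neighbours of the end of the path have distant first neighbours -/
theorem far (hs : ∀ a b, Ad a b → Ad b a) (hi : ∀ a, ¬ Ad a a) (hg : Girth Ad 12)
    {U : Finset V} {n : ℕ} {p : ℕ → V} (hp : IP Ad U n p) {x y : V} (hx0 : Ad (p 0) x)
    (hy0 : Ad (p 0) y) (hxy : x ≠ y) (hx : ∀ i, i ≤ n → x ≠ p i) (hy : ∀ i, i ≤ n → y ≠ p i)
    {a b : ℕ} (ha0 : 1 ≤ a) (hab : a ≤ b) (hb : b ≤ n) (hxa : Ad x (p a)) (hyb : Ad y (p b)) :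
    a + 8 ≤ b := by
  by_contra hcon
  push Not at hcon
  set w : ℕ → V := fun i => if i = 0 then p 0 else if i = 1 then x else
    if i ≤ b - a + 2 then p (a + i - 2) else if i = b - a + 3 then y else p 0 with hw
  have w0 : w 0 = p 0 := rfl
  have w1 : w 1 = x := rfl
  have wi : ∀ i, 2 ≤ i → i ≤ b - a + 2 → w i = p (a + i - 2) := by
    intro i h1 h2
    rw [hw]
    simp only [if_neg (show ¬ i = 0 by omega), if_neg (show ¬ i = 1 by omega), if_pos h2]
  have wy : w (b - a + 3) = y := by
    rw [hw]
    simp only [if_neg (show ¬ b - a + 3 = 0 by omega), if_neg (show ¬ b - a + 3 = 1 by omega),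
      if_neg (show ¬ b - a + 3 ≤ b - a + 2 by omega), if_true]
  have wd : w (b - a + 4) = p 0 := by
    rw [hw]
    simp only [if_neg (show ¬ b - a + 4 = 0 by omega), if_neg (show ¬ b - a + 4 = 1 by omega),
      if_neg (show ¬ b - a + 4 ≤ b - a + 2 by omega), if_neg (show ¬ b - a + 4 = b - a + 3 by omega)]
  refine NB.ne hi hg (b - a + 4) (by omega) (by omega) w ⟨?_, ?_⟩ (by rw [w0, wd])
  · intro i hin
    rcases Nat.lt_or_ge i 2 with h | h
    · interval_cases i
      · rw [w0, zero_add, w1]
        exact hx0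
      · rw [w1, wi 2 le_rfl (by omega)]
        exact hxa
    · rcases Nat.lt_or_ge i (b - a + 2) with h2 | h2
      · rw [wi i h (by omega), wi (i + 1) (by omega) (by omega),
          show a + (i + 1) - 2 = a + i - 2 + 1 by omega]
        exact hp.adj _ (by omega)
      · rcases Nat.lt_or_ge i (b - a + 3) with h3 | h3
        · obtain rfl : i = b - a + 2 := by omega
          rw [wi _ h le_rfl, wy, show a + (b - a + 2) - 2 = b by omega]
          exact hs _ _ hyb
        · obtain rfl : i = b - a + 3 := by omega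
          rw [wy, wd]
          exact hs _ _ hy0
  · intro i hin
    rcases Nat.lt_or_ge i 2 with h | h
    · interval_cases i
      · rw [w0, zero_add, wi 2 le_rfl (by omega)]
        exact hp.ne _ _ (by omega) (by omega)
      · rw [w1]
        rcases Nat.lt_or_ge a b with h4 | h4
        · rw [wi 3 (by norm_num) (by omega)]
          exact hx _ (by omega)
        · obtain rfl : a = b := le_antisymm hab h4
          have : w 3 = y := by
            have := wy
            rwa [Nat.sub_self] at this
          rw [this]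
          exact hxy
    · rcases Nat.lt_or_ge (i + 2) (b - a + 3) with h2 | h2
      · rw [wi i h (by omega), wi (i + 2) (by omega) (by omega)]
        exact hp.ne _ _ (by omega) (by omega)
      · rcases Nat.lt_or_ge (i + 2) (b - a + 4) with h3 | h3
        · have h5 : i + 2 = b - a + 3 := by omega
          rw [h5, wy, wi i h (by omega)]
          exact (hy _ (by omega)).symm
        · have h5 : i + 2 = b - a + 4 := by omega
          rw [h5, wd, wi i h (by omega)]
          exact (hp.ne _ _ (by omega) (by omega)).symm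

/-- a set with minimum degree at least two contains an induced circuit -/
theorem exists_circ (hs : ∀ a b, Ad a b → Ad b a) (hi : ∀ a, ¬ Ad a a) {U : Finset V}
    (hU : U.Nonempty) (h2 : ∀ v ∈ U, ∀ a, ∃ b ∈ U, Ad v b ∧ b ≠ a) :
    ∃ (k : ℕ) (z : Fin (k + 3) → V), Circ Ad k z ∧ ∀ i, z i ∈ U := by
  obtain ⟨n, p, hp, hmax⟩ := exists_longest (Ad := Ad) hU
  obtain ⟨x, hx, hx0, hx1⟩ := h2 (p 0) (hp.mem 0 (Nat.zero_le _)) (p 1)
  obtain ⟨hoff, k, hk, hk1, hk2⟩ := contact hs hi hp hmax hx hx0 hx1
  refine ⟨k, _, circ_of hs hi hp hx0 hoff hk hk1 hk2, ?_⟩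
  intro i
  refine Fin.cases ?_ (fun i => ?_) i
  · exact hx
  · exact hp.mem _ (by omega)

/-- a set with minimum degree at least three and girth at least twelve contains an induced circuit
with at least twenty edges -/
theorem exists_long (hs : ∀ a b, Ad a b → Ad b a) (hi : ∀ a, ¬ Ad a a) (hg : Girth Ad 12)
    {U : Finset V} (hU : U.Nonempty) (h3 : ∀ v ∈ U, ∀ a, ∃ b ∈ U, ∃ c ∈ U, Ad v b ∧ Ad v c ∧
      b ≠ a ∧ c ≠ a ∧ b ≠ c) : ∃ (k : ℕ) (z : Fin (k + 3) → V), 20 ≤ k + 3 ∧ Circ Ad k z := by
  obtain ⟨n, p, hp, hmax⟩ := exists_longest (Ad := Ad) hU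
  obtain ⟨x, hx, y, hy, hx0, hy0, hx1, hy1, hxy⟩ := h3 (p 0) (hp.mem 0 (Nat.zero_le _)) (p 1)
  obtain ⟨hoffx, a, ha, ha1, ha2⟩ := contact hs hi hp hmax hx hx0 hx1
  obtain ⟨hoffy, b, hb, hb1, hb2⟩ := contact hs hi hp hmax hy hy0 hy1
  have cx := circ_of hs hi hp hx0 hoffx ha ha1 ha2
  have cy := circ_of hs hi hp hy0 hoffy hb hb1 hb2
  have hlx : 12 ≤ a + 3 := by
    by_contra hcon
    exact hg a (by omega) _ cx.inj cx.adj
  have hly : 12 ≤ b + 3 := by
    by_contra hcon
    exact hg b (by omega) _ cy.inj cy.adj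
  rcases Nat.le_total a b with hab | hab
  · have := far hs hi hg hp hx0 hy0 hxy hoffx hoffy (a := a + 1) (b := b + 1) (by omega) (by omega)
      hb ha1 hb1
    exact ⟨b, _, by omega, cy⟩
  · have := far hs hi hg hp hy0 hx0 hxy.symm hoffy hoffx (a := b + 1) (b := a + 1) (by omega)
      (by omega) ha hb1 ha1
    exact ⟨a, _, by omega, cx⟩

end

end Pool.Agent.Q165.IC
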